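import Pool.Agent.T2h63.CY.Main

/-!
# Varieties of Calabi-Yau type: the level gap of the Hodge group, and products

Let `k` be an algebraically closed field with an embedding into `ℂ`, let `T` be the theory
`X ↦ H(X, ℚ)` with its Hodge decompositions, and `𝒜` a system of Hodge classes stable under linear
combinations, products, pull-backs and push-forwards which contains the classes of algebraic
cycles. For the problem, `𝒜` is the system of the absolute Hodge classes
(`Pool.Agent.T2h63.AH.absSystem`); the theorem holds for all systems, for example for the classes
of algebraic cycles. `𝒜` defines the motives `(X, p, m)`.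

A polarised variety `X` is of Calabi-Yau type (`IsCY`) if its dimension `n` is odd and at least
`3`, all classes of degree different from `n` are combinations of Hodge classes, `h^(n,0) = 1`, and
the endomorphisms of the Hodge structure `H^n(X)` are the rational numbers. For example, all
Calabi-Yau threefolds with `End H^3(X) = ℚ` and all Calabi-Yau hypersurfaces of odd dimension with
`End H^n(X) = ℚ` are of this type.

The Hodge Lie algebra `𝔥` of `X` is the Lie algebra of operators on `H(X, ℂ)` generated by the
conjugates, by the automorphisms of `ℂ`, of the operator which is `p - q` on `H^(p,q)` (`LieOf`). It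
is graded: `𝔥 = ⨁ 𝔥_j`, where `𝔥_j` maps `H^(p,q)` to `H^(p+j,q-j)`. The level of `X` is the largest `j`
with `𝔥_j ≠ 0`.

**Theorem.** Let `𝒳` be any class of varieties of Calabi-Yau type, of any dimensions `n`, of level
greater than `n - 2`.

* **The level gap.** The Hodge group of each `X` in `𝒳` is as large as possible: `𝔥` contains the whole
  symplectic Lie algebra of `H^n(X)`. So the level of a variety of Calabi-Yau type is `n` or at most
  `n - 2`. For example, a Calabi-Yau threefold with `End H^3(X) = ℚ` has the full symplectic group as
  its Hodge group, or its Hodge group is of Hermitian type (level one).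
* **Products.** Suppose that there are no nonzero morphisms of Hodge structures between `H^n(X)` and
  `H^n(Y)` for different `X` and `Y` in `𝒳`, and let `𝒵` be any class of varieties of level less
  than `dim X` for all `X` in `𝒳`. Then the Hodge realization is fully faithful on the motives of all
  products of varieties in `𝒵 ∪ 𝒳` if and only if it is fully faithful on the motives of all
  products of varieties in `𝒵` and the Hodge classes on the varieties `X` in `𝒳` themselves are
  in `𝒜`.

The level is at most one for abelian varieties and all varieties with motives in the category `M^av`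
generated by abelian varieties, and at most two for surfaces. With the theorem of Deligne for `M^av`
the second part says: the Hodge realization is fully faithful on the tensor category
generated by `M^av` and the motives of all Calabi-Yau threefolds `X`, and hypersurfaces, in `𝒳`
(the Hodge classes on them are absolute Hodge classes). For the system of the algebraic classes it
says that the Hodge conjecture for all products of surfaces, abelian varieties and such
Calabi-Yau threefolds follows from the Hodge conjecture for the products of surfaces and abelian
varieties.

The proof of the first part. `𝔥` acts irreducibly on `V = H^n(X, ℂ)`: a stable subspace has a stable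
complement by the polarisation, and the equivariant operators are combinations of endomorphisms
of the Hodge structure, since subspaces stable under `Aut ℂ` are spanned by rational vectors.
Let `Ω` span `H^(n,0)`. An element of `𝔥_n` is a multiple of the square `Ω·Ω` (`x ↦ 2 ψ(Ω, x) Ω`) and
an element of `𝔥_(n-1)` is `a·Ω` with `a` in `H^(n-1,1)`. If `𝔥_n = 0` then the space of all these `a` is
killed by all `𝔥_j` with `j > 0` and stable under `𝔥_0`, so it generates a proper subspace of `V`
stable under `𝔥`; hence it is zero and `𝔥_(n-1) = 0`. If `𝔥_n ≠ 0` then `Ω·Ω` and its conjugate `Ω'·Ω'` are in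
`𝔥`, and the set of the `u` with `u·Ω` in `𝔥` generates a stable subspace, so `𝔥` contains all `u·v`. The
proof of the second part: the operators in `𝔥` extend to families of derivations on the
cohomology of all varieties; for `Ω·Ω` there is such a family which vanishes on the varieties of
smaller level, and on the other varieties `Y` in `𝒳`, because otherwise `𝔥_0` acts by the same character
on `H^(n,0)` of `X` and `Y`, and this gives a morphism between `H^n(X)` and `H^n(Y)`. Then the Hodge
classes on products split, and the Hodge classes on `X ^ m` are determined by the first
fundamental theorem for the symplectic group.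
-/

open CategoryTheory AlgebraicGeometry

universe u

namespace Pool.Agent.Results.MP_0da4e0_ag.CalabiYauMotives

open Pool.Agent.H914 Pool.Agent.Y121.AHS Pool.Agent.T2h63.AH Pool.Agent.T2h63.CY

variable {k : Type u} [Field k] {𝒱 : VarClass k} {ops : CycleOps 𝒱}

/-- **Varieties of Calabi-Yau type of level greater than `n - 2`.** -/
theorem result (T : HodgeTheory ops) (𝒜 : ClassSystem T) (𝒵 𝒳 : Set 𝒱.Obj)
    (h𝒳 : ∀ X ∈ 𝒳, IsCY T X) (hl : ∀ X ∈ 𝒳, ¬ LevelLE T X (X.dim - 2)) :
    (∀ X ∈ 𝒳, FullSymplectic T X) ∧
    (PairwiseDistinct T 𝒳 → (∀ Z ∈ 𝒵, ∀ X ∈ 𝒳, LevelLE T Z (X.dim - 1)) →
      (FullyFaithfulOn 𝒜 (Products (𝒵 ∪ 𝒳)) ↔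
        FullyFaithfulOn 𝒜 (Products 𝒵) ∧ ∀ X ∈ 𝒳, AllIn 𝒜 X)) :=
  ⟨fun X hX => (gap (h𝒳 X hX)).resolve_left (hl X hX), fun hne h𝒵 => full_iff h𝒳 hne hl h𝒵⟩

end Pool.Agent.Results.MP_0da4e0_ag.CalabiYauMotives
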