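import Pool.Agent.T2h11.Zah.Law

/-!
# Counting Hodge classes and their conjugates

Let `k` be an algebraically closed field with an embedding `σ` into the complex numbers, `C` the category of
motives over `k` for absolute Hodge cycles, `M` a motive (for example `h(X)` for a smooth projective variety `X`) and
`T = 1 ⊕ M ⊕ M^∨`; the tensor powers of `T` contain the motives of all powers of `X` with all Tate twists. Let

* `h n` be the dimension of the space of the Hodge classes in `H_σ(T^{⊗ n})` (over `ℚ`),
* `c n` the dimension of the subspace of the absolute Hodge classes, that is of `Hom(1, T^{⊗ n})`.

Question Q1 is whether `h n = c n` for all `n` and all `M`. By Deligne it is so for abelian varieties. In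
general nothing relates the two numbers except `c n ≤ h n`.

**Theorem.** (1) The quotients `h n / c n` converge, and the limit `N` is a natural number or infinity.

(2) `N = 1` if and only if all Hodge classes in all `T^{⊗ n}` are absolute Hodge classes.

(3) **Suppose that `N` is finite** (that is, for infinitely many `n` the Hodge classes are at most a constant times
more numerous than the absolute Hodge classes). **Then all Hodge classes in all `T^{⊗ n}` together have at most `N` systems
of conjugates** in the cohomology `H_τ(-, ℂ)` for another embedding `τ`, in de Rham cohomology or in étale
cohomology: all the `⊗`-isomorphisms, also semilinear ones, between `H_σ(-, ℂ)` and this cohomology induce at most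
`N` different maps on the system of all Hodge classes. Consequently
  - all conjugates `x^τ` of a Hodge class `x` are of type `(0, 0)` (the torus of the Hodge structure is connected) and
    they are defined over a number field of degree at most `N`, i.e. they are combinations of
    rational classes with coefficients in this field;
  - if `X` and all absolute Hodge classes in all `T^{⊗ n}` are defined over a field `k₀` (one can take a finite extension of
    any field of definition of `X`), then all Hodge classes in all `T^{⊗ n}` are defined, in de Rham cohomology, over one
    and the same extension of `k₀` of degree at most `N`, and in étale cohomology they are fixed by one and the same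
    open subgroup of index at most `N` in the Galois group of `k₀` (in particular they are Tate classes);
  - the subgroup of the (complex points of the) motivic Galois group which fixes all Hodge classes has index at
    most `N`.
Moreover (`GenBy`) all Hodge classes in all `T^{⊗ n}` are obtained by absolute Hodge correspondences from at most
`N` Hodge classes in one tensor power; so Q1 for all powers of `X` is then a question on at most
`N` classes.

(4) The law is effective: let `b` be the dimension of `T` and `n ≥ 128 (k m + 1) ^ 2 b ^ (2 k m + 6)`. If
`h n < (1 + k / 2) c n` for this ONE `n`, then every Hodge class in `T^{⊗ m}` has finitely many conjugates in all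
realisations, and these are fixed by all connected groups (so they are of type `(0, 0)`, de Rham
classes defined over `k`, and Tate classes). If `k = 1`, that is `h n < (3/2) c n`, all Hodge classes in
`T^{⊗ m}` are absolute Hodge classes. So if one Hodge class in `T^{⊗ m}` is not absolute Hodge,
then `h n ≥ (3/2) c n` for all large `n`, and if one of them has infinitely many conjugates (for example one
which is not of type `(0, 0)`), then `h n / c n` tends to infinity at least like `log n / (4 m log b)`.

The theorem is proved in general: `R` is a realisation of a rigid symmetric monoidal `Λ`-linear category without
numerically trivial morphisms between the tensor powers of `T`, `S` a family of `Λ`-subspaces of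
the values of `R` which is stable under morphisms and exterior products, and the conjugations (`Conj`) are families
of additive maps to another realisation `R'`, over any field of characteristic zero, which commute with all morphisms and
all exterior products. For example: isomorphisms of fibre functors, the comparison isomorphisms, the action of
a Galois group or of `Aut(ℂ/ℚ)`, the action of the motivic Galois group, and their compositions.

Idea of the proof. By the law of the dimensions of the values of additive functors on tensor powers (helper64 and
others, see `MP_4960c7_ag.ProductsVanish`) the limits exist. New: the conjugations are natural transformations from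
the functor `S` of the Hodge classes to the functor `H'`; by induction on the limit (splitting off the functors
`g Hom(T^{⊗ m}, -)`, `g` an idempotent, for which the limit is the rank of `g` and the space of natural transformations
to `H'` is the image of `g` in `H'(T^{⊗ m})`) the dimension of the space of all natural transformations from `S` to `H'`
is at most `N`; and by Dedekind's argument different conjugations, being multiplicative, are linearly
independent. The rank of `g` is the same in both realisations, because the projector on the even part is the
same. For (4) one filters the functor by the classes generated by `1, x, …, x^{⊗ k}`.
-/

set_option autoImplicit false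

open CategoryTheory MonoidalCategory Module
open Pool.Agent.Y112.SR Pool.Agent.Y112.KD Pool.Agent.N64.AF Pool.Agent.T2h11.Zah

universe u v w t

namespace Pool.Agent.Results.MP_0da4e0_ag.CountingHodgeClasses

/-- **Counting classes and their conjugates.** -/
theorem result {C : Type u} [Category.{v} C] [Preadditive C] [MonoidalCategory C]
    [MonoidalPreadditive C] [SymmetricCategory C] [RightRigidCategory C]
    {Λ : Type t} [Field Λ] [CharZero Λ] [Linear Λ C] [MonoidalLinear Λ C]
    {K : Type w} [Field K] [IsAlgClosed K] [Algebra Λ K]
    -- the cohomology, and the object `T`
    (R : SuperRealisation C K) (T : C) [ExactPairing T T] (h : IsPow Λ R T)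
    (hss : NoNumTriv T)
    -- the Hodge classes
    (S : ∀ Z, Submodule Λ ((resF Λ R).obj Z)) (hS : IsClasses R S) :
    (∃ N : ℕ∞,
      -- (1)
      Ratio (ncl S T) (ncom Λ T) N ∧ N ≠ 0 ∧
      -- (2)
      (N = 1 ↔ ∀ n, AllFromMor S T n) ∧
      -- (3)
      AtMostConj S T N ∧ (N ≠ ⊤ → GenBy S T N ∧ ∀ n, AllFinConj S T n)) ∧
    -- (4)
    ∀ k m n : ℕ, Large R T k m n → 2 * ncl S T n < ((k + 2 : ℕ) : ℕ∞) * ncom Λ T n →
      AllFinConj S T m ∧ (k = 1 → AllFromMor S T m) := by
  obtain ⟨⟨N, h1, h2, h3, h4, h5⟩, h6⟩ := main_law h hss S hS
  exact ⟨⟨N, h1, h2, h4, h3, h5⟩, h6⟩

end Pool.Agent.Results.MP_0da4e0_ag.CountingHodgeClasses
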