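import Pool.Agent.T2h63.AH.Main2

/-!
# Extending the fully faithful part of the Hodge realization by an arbitrary variety of high level

Let `k` be an algebraically closed field with an embedding into `ℂ`, let `T` be the theory
`X ↦ H(X, ℚ)` with its Hodge decompositions, and `𝒜` a system of Hodge classes stable under linear
combinations, products, pull-backs and push-forwards which contains the classes of algebraic
cycles. For the problem, `𝒜` is the system of the absolute Hodge classes
(`Pool.Agent.T2h63.AH.absSystem`); the theorem holds for all systems. `𝒜` defines the motives
`(X, p, m)`.

The Hodge Lie algebra `𝔥` of `X` is the Lie algebra of operators on `H(X, ℂ)` generated by the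
conjugates, by the automorphisms of `ℂ`, of the operator which is `p - q` on `H^(p,q)` (`LieOf`). It
is graded: `𝔥 = ⨁ 𝔥_j`, where `𝔥_j` maps `H^(p,q)` to `H^(p+j,q-j)`. The variety `Z` has level at most `w`
if `𝔥_j = 0` for all `|j| > w`; this holds with `w = 1` for all abelian varieties, and for all varieties
whose motives belong to the category `M^av` generated by abelian varieties, and with `w = 2` for all
surfaces. The variety `X` has high level (`HasHighLevel T X w`) if `𝔥` is generated as an ideal
by the conjugates of the `𝔥_j` with `|j| > w`: no nonzero quotient of the Lie algebra of the Hodge group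
of `X` over the field of rational numbers is of level at most `w`. There is no condition on the type
of the Hodge group of `X`, on the dimension or the Hodge numbers of `X`.

Let `𝒵` be any class of varieties of level at most `w` and let `X` be of high level. Let `t` be the
transcendental Betti number of `X` (the sum of the Betti numbers minus the number of linearly
independent Hodge classes). Then

* the Hodge classes on `Z × X ^ (n + 1)`, for all products `Z` of varieties in `𝒵` and all `n`, are the
  combinations of the products of Hodge classes on `Z` and Hodge classes on `X ^ (n + 1)`;
* the Hodge realization is fully faithful on the motives of all products of varieties in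
  `𝒵 ∪ {X}` if and only if it is fully faithful on the motives of all products of varieties in `𝒵` and
  all Hodge classes on the one power `X ^ N` are in `𝒜` (absolute Hodge classes), where
  `N = max(4, t)` if the centre of the algebra of endomorphisms of the Hodge structure `H(X)` is
  totally real, and `N = max(4, t ^ 2 / 4)` in general.

With `w = 1`, `𝒵` the class of all varieties with motives in `M^av`, and the theorem of Deligne: the
Hodge realization is fully faithful on the tensor category generated by `M^av` and the motive of `X` if
and only if all Hodge classes on the one variety `X ^ N` are absolute Hodge classes.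

The proof. (1) All operators in `𝔥` are members of families of derivations of `H(Y, ℂ)`, for all `Y`,
which commute with pull-backs and kill the Hodge classes; these families form a Lie algebra, stable
under the commutator with the Hodge operator `N`. (2) Let `A` be in `𝔥_j`, `|j| > w`, and extend it to
a family `F`. Then `∏_{|i| ≤ w} (ad N - 2 i) F` vanishes on all varieties of level at most `w`,
and is a nonzero multiple of `A` on `X`. So all operators in the ideal generated by the conjugates of
these `A` extend to families which vanish on all varieties of level at most `w`. By assumption this is true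
for the Hodge operator of `X`; let `F` be this family. (3) On `Z × X ^ n` we get `F = 1 ⊗ N` and
`N - F = N ⊗ 1`. Hence a rational class killed by all families is killed by `1 ⊗ N` and by `N ⊗ 1`, and
splits. (4) In a variety of high level `Tr(f A) = 0` for all `A` in `𝔥` and all endomorphisms `f` of the
Hodge structure (compare the types; use that `f` commutes with `𝔥`), so the Hodge group is
semisimple, and the bounded power theorem (`MP_e12fcd_ag.BoundedPower` of the library) applies to the
system of the classes in `𝒜` on the powers of `X`, with the exponent `N` above.
-/

open CategoryTheory AlgebraicGeometry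

universe u

namespace Pool.Agent.Results.MP_0da4e0_ag.ExtensionOfDeligne

open Pool.Agent.H914 Pool.Agent.H914.VarClass Pool.Agent.H914.VarClass.Obj
  Pool.Agent.H914.WeilCohomology Pool.Agent.Y121.AHS Pool.Agent.T2h63.AH

open Pool.Agent.Y133.Half (pw)
open Pool.Agent.N996.BP (Bil)

variable {k : Type u} [Field k] {𝒱 : VarClass k} {ops : CycleOps 𝒱}

/-- **Extension of the theorem of Deligne by a variety of high level.** -/
theorem result (T : HodgeTheory ops) (𝒜 : ClassSystem T) (w : ℕ) (𝒵 : Set 𝒱.Obj)
    (h𝒵 : ∀ Z ∈ 𝒵, LevelLE T Z w) (X : 𝒱.Obj) (hX : HasHighLevel T X w)
    (ψ : Bil T.W.K (T.W.H X)) (hψ : IsPol T X ψ) (t N : ℕ) (ht : t = trBetti T X)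
    (hN : (RealCentre T X ψ ∧ N = max 4 t) ∨ N = max 4 (t ^ 2 / 4)) :
    (∀ Z, Products 𝒵 Z → ∀ (n j : ℕ) (c : T.W.H (Z.prod (pw X n))),
      IsHodge T (Z.prod (pw X n)) j c → Splits T Z (pw X n) c) ∧
    (FullyFaithfulOn 𝒜 (Products (insert X 𝒵)) ↔
      FullyFaithfulOn 𝒜 (Products 𝒵) ∧ AllIn 𝒜 (pw X (N - 1))) :=
  extension 𝒜 h𝒵 hX hψ ht hN

end Pool.Agent.Results.MP_0da4e0_ag.ExtensionOfDeligne
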