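import Pool.Agent.T2h63.LT.Main
import Pool.Agent.T2h63.LT.LIESUM
import Pool.Agent.T2h63.LT.SIMQ
import Pool.Agent.T2h63.LT.FFTO
import Pool.Agent.T2h63.LT.ARR
import Pool.Agent.T2h63.LT.MATX
import Pool.Agent.T2h63.LT.CEN
import Pool.Agent.T2h63.LT.DETH

/-!
# Full faithfulness of the Hodge realization on the motives of surfaces with `h^(2,0) ≥ 2`

`T` is a rational cohomology theory with Hodge decompositions and `𝒜` a system of Hodge classes which is
stable under linear combinations, products, pull-backs and push-forwards and contains the classes of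
algebraic cycles (for example the absolute Hodge classes).

`X` is a smooth projective variety of even dimension `2 m` such that all cohomology classes of degree
different from `2 m` are combinations of Hodge classes, `H^(a,b) = 0` for `|a - b| > 2`, the number `p`,
the dimension of `H^(m+1,m-1)`, is at least `2`, the endomorphisms of the Hodge structure act as rational
numbers on the transcendental classes, and the transcendental Betti number `t` satisfies
`2 p^2 (p^2 + 1) < (t - 4 p) (t - p)`. (For example surfaces with `b_1 = 0`: quintic surfaces with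
Picard number one and no endomorphisms, double planes, elliptic surfaces with `2 ≤ h^(2,0) ≤ 7`.)

**Theorem.** (1) The Hodge Lie algebra of `X` contains the whole orthogonal Lie algebra of the space of
the transcendental classes. (2) Let `𝒳` be a set of such varieties without morphisms of Hodge
structures between the transcendental parts, and let `𝒵` be a set of varieties whose Hodge Lie algebra is
of level at most one (by Deligne: all abelian varieties). Then the Hodge realization is fully
faithful on the motives of all products of varieties in `𝒵 ∪ 𝒳` if and only if it is fully faithful on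
the motives of the products of varieties in `𝒵`, and for the single varieties `X` in `𝒳` the Hodge classes on
`X` itself and the determinants of the transcendental classes belong to `𝒜`.
-/

open CategoryTheory AlgebraicGeometry

universe u

namespace Pool.Agent.Results.MP_0da4e0_ag.SurfaceMotives

open Pool.Agent.H914 Pool.Agent.Y121.AHS Pool.Agent.T2h63.AH Pool.Agent.T2h63.LT

/-- **Full faithfulness on the motives of surfaces.** -/
theorem result {k : Type u} [Field k] {𝒱 : VarClass k} {ops : CycleOps 𝒱}
    (T : HodgeTheory ops) (𝒜 : ClassSystem T) :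
    (∀ X m p, IsLT T X m p → FullOrthogonal T X) ∧
    ∀ 𝒵 𝒳 : Set 𝒱.Obj, (∀ X ∈ 𝒳, ∃ m p, IsLT T X m p) → Distinct T 𝒳 →
      (∀ Z ∈ 𝒵, LevelLE T Z 1) →
      (FullyFaithfulOn 𝒜 (Products (𝒵 ∪ 𝒳)) ↔
        FullyFaithfulOn 𝒜 (Products 𝒵) ∧ ∀ X ∈ 𝒳, AllIn 𝒜 X ∧ DetIn 𝒜 X) :=
  ⟨fun _ _ _ h => full_orth t_LIESUM (t_MATX t_DEC) h, fun _ _ h1 h2 h3 =>
    full_iff t_LIESUM t_SIMQ (t_MATX t_DEC) (t_CEN t_DEC) (t_ARR t_DEC t_FFTO) (t_DETH t_DEC)
      h1 h2 h3⟩

end Pool.Agent.Results.MP_0da4e0_ag.SurfaceMotives
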